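import Pool.Agent.Helper20.KS.Stm

/-! Package GEO of KS: many segments of a Kakeya set over a common height. -/

set_option autoImplicit false

open Finset

namespace Pool.Agent.Helper32.KS

open Pool.Agent.Helper20.KS

/-- the direction `(v / M, 1)` -/
noncomputable def dir {n : ℕ} (M : ℕ) (v : Fin n → ℕ) : EuclideanSpace ℝ (Fin (n + 1)) :=
  WithLp.toLp 2 (Fin.snoc (fun k => (v k : ℝ) / M) 1 : Fin (n + 1) → ℝ)

lemma dir_cast {n : ℕ} (M : ℕ) (v : Fin n → ℕ) (k : Fin n) : dir M v k.castSucc = v k / M := by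
  change (Fin.snoc (fun k => (v k : ℝ) / M) 1 : Fin (n + 1) → ℝ) k.castSucc = _
  rw [Fin.snoc_castSucc]

lemma dir_last {n : ℕ} (M : ℕ) (v : Fin n → ℕ) : dir M v (Fin.last n) = 1 := by
  change (Fin.snoc (fun k => (v k : ℝ) / M) 1 : Fin (n + 1) → ℝ) (Fin.last n) = _
  rw [Fin.snoc_last]

lemma one_le_dir {n : ℕ} (M : ℕ) (v : Fin n → ℕ) : 1 ≤ ‖dir M v‖ := by
  have h := PiLp.norm_apply_le (dir M v) (Fin.last n)
  rw [dir_last, norm_one] at h
  exact h

lemma dir_le {n : ℕ} {M : ℕ} (hM : 1 ≤ M) {v : Fin n → ℕ} (hv : ∀ k, v k < M) :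
    ‖dir M v‖ ≤ Real.sqrt (n + 1) := by
  rw [EuclideanSpace.norm_eq]
  apply Real.sqrt_le_sqrt
  rw [Fin.sum_univ_castSucc, dir_last, norm_one, one_pow]
  have hM' : (0 : ℝ) < M := by exact_mod_cast hM
  have h1 : ∀ k ∈ (Finset.univ : Finset (Fin n)), ‖dir M v k.castSucc‖ ^ 2 ≤ (1 : ℝ) := by
    intro k _
    rw [dir_cast, Real.norm_eq_abs, abs_of_nonneg (by positivity)]
    have h2 : (v k : ℝ) ≤ M := by exact_mod_cast (hv k).le
    exact pow_le_one₀ (by positivity) ((div_le_one hM').2 h2)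
  have h2 := Finset.sum_le_sum h1
  rw [Finset.sum_const, Finset.card_univ, Fintype.card_fin, nsmul_eq_mul, mul_one] at h2
  linarith

theorem geo : S_GEO := by
  intro n K hK hKak
  obtain ⟨H0, hH0⟩ := hK.exists_norm_le
  set H : ℝ := max H0 0 with hHd
  have hH : ∀ y ∈ K, ‖y‖ ≤ H := fun y hy => (hH0 y hy).trans (le_max_left _ _)
  have hHn : 0 ≤ H := le_max_right _ _
  set c : ℝ := Real.sqrt (n + 1) with hc
  have hc0 : 0 < c := Real.sqrt_pos.2 (by positivity)
  set w : ℝ := 1 / (2 * c) with hw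
  have hw0 : 0 < w := by positivity
  set T : Finset ℤ := Finset.Icc ⌈-(H / w)⌉ ⌈H / w⌉ with hT
  have hTne : T.Nonempty := by
    rw [hT, Finset.nonempty_Icc]
    apply Int.ceil_mono
    have : 0 ≤ H / w := by positivity
    linarith
  refine ⟨w, T.card, hw0, by exact_mod_cast hTne.card_pos, fun M hM => ?_⟩
  have hM' : (0 : ℝ) < M := by exact_mod_cast hM
  -- the segments
  have key : ∀ v : Fin n → ℕ, (∀ k, v k < M) → ∃ a : EuclideanSpace ℝ (Fin (n + 1)),
      ∀ s ∈ Set.Icc (0 : ℝ) (2 * w), a + s • dir M v ∈ K := by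
    intro v hv
    have h1 := one_le_dir M v
    have h2 := dir_le hM hv
    have h0 : 0 < ‖dir M v‖ := by linarith
    obtain ⟨a, ha⟩ := hKak (‖dir M v‖⁻¹ • dir M v) (by
      rw [norm_smul, norm_inv, norm_norm, inv_mul_cancel₀ h0.ne'])
    refine ⟨a, fun s hs => ?_⟩
    have h3 := ha (s * ‖dir M v‖) ⟨mul_nonneg hs.1 h0.le, by
      have h4 : s * ‖dir M v‖ ≤ 2 * w * c :=
        mul_le_mul hs.2 h2 h0.le (by positivity)
      have h5 : 2 * w * c = 1 := by
        rw [hw]
        field_simp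
      linarith⟩
    rwa [smul_smul, mul_assoc, mul_inv_cancel₀ h0.ne', mul_one] at h3
  choose! a ha using key
  -- the heights
  set f : (Fin n → ℕ) → ℤ := fun v => ⌈a v (Fin.last n) / w⌉ with hf
  set V : Finset (Fin n → ℕ) := Fintype.piFinset fun _ => Finset.range M with hV
  have hVm : ∀ v ∈ V, ∀ k, v k < M := by
    intro v hv k
    rw [hV, Fintype.mem_piFinset] at hv
    exact Finset.mem_range.1 (hv k)
  have hVc : V.card = M ^ n := by
    rw [hV, Fintype.card_piFinset_const, Finset.card_range]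
  have haK : ∀ v ∈ V, |a v (Fin.last n)| ≤ H := by
    intro v hv
    have h1 := ha v (hVm v hv) 0 ⟨le_rfl, by positivity⟩
    rw [zero_smul, add_zero] at h1
    exact (PiLp.norm_apply_le (a v) (Fin.last n)).trans (hH _ h1)
  have hmaps : ∀ v ∈ V, f v ∈ T := by
    intro v hv
    have h1 := abs_le.1 (haK v hv)
    rw [hT, Finset.mem_Icc]
    constructor
    · apply Int.ceil_mono
      rw [← neg_div]
      exact (div_le_div_iff_of_pos_right hw0).2 h1.1
    · apply Int.ceil_mono
      exact (div_le_div_iff_of_pos_right hw0).2 h1.2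
  have hTc : (0 : ℝ) < T.card := by exact_mod_cast hTne.card_pos
  obtain ⟨q, hq, hq'⟩ := Finset.exists_le_card_fiber_of_nsmul_le_card_of_maps_to
    (b := (M : ℝ) ^ n / T.card) hmaps hTne (by
      rw [nsmul_eq_mul, mul_div_cancel₀ _ hTc.ne', hVc]
      push_cast
      exact le_rfl)
  refine ⟨w * q, V.filter fun v => f v = q,
    fun v k => a v k.castSucc + (w * q - a v (Fin.last n)) * (v k / M), ?_, ?_, ?_⟩
  · intro v hv
    exact hVm v (Finset.mem_filter.1 hv).1
  · rwa [div_le_iff₀' hTc] at hq'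
  · intro v hv s hs
    obtain ⟨hvV, hvq⟩ := Finset.mem_filter.1 hv
    have h1 : a v (Fin.last n) / w ≤ q := by
      rw [← hvq]
      exact Int.le_ceil _
    have h2 : (q : ℝ) < a v (Fin.last n) / w + 1 := by
      rw [← hvq]
      exact Int.ceil_lt_add_one _
    have h3 : a v (Fin.last n) ≤ w * q := by
      rw [div_le_iff₀' hw0] at h1
      exact h1
    have h4 : w * q < a v (Fin.last n) + w := by
      have h5 := mul_lt_mul_of_pos_left h2 hw0
      rw [mul_add, mul_div_cancel₀ _ hw0.ne', mul_one] at h5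
      exact h5
    refine ⟨a v + (w * q - a v (Fin.last n) + s) • dir M v, ha v (hVm v hvV) _ ⟨?_, ?_⟩, ?_, ?_⟩
    · linarith [hs.1]
    · linarith [hs.2]
    · intro k
      rw [PiLp.add_apply, PiLp.smul_apply, dir_cast, smul_eq_mul]
      ring
    · rw [PiLp.add_apply, PiLp.smul_apply, dir_last, smul_eq_mul]
      ring

end Pool.Agent.Helper32.KS
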